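import Pool.Agent.N650.TH.Star

/-!
# MP_1bdb59_nt: the Selmer group conjecture for thin sequences of curves
# `y ^ ℓ = δ (x - g_0(t)) ⋯ (x - g_M(t))` over all number fields, with one set of density zero

The starting result `AlmostAllMonic` shows for a number field `k` with the roots of unity of order `ℓ`
that for 100% of the tuples `(g_0, …, g_M)` of polynomials of degree at most `n` over the ring of integers
of `k`, ordered by the size of the coordinates of the coefficients in an integral basis, the Selmer group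
conjecture at `ℓ` is true for the Jacobian `J` of the curve `y ^ ℓ = δ (x - g_0(t)) ⋯ (x - g_M(t))` over
`k(t)`, for all `δ ≠ 0` in `k`. The definitions of the Jacobian `J`, of its Galois cohomology over
`K = k(t)` and of the groups of locally trivial classes are in `Pool.Agent.Y713.SE.Stm`.

Let `P_0, P_1, P_2, …` be an infinite sequence of generalised polynomials `P(m) = ∑ a_x m ^ x` (finitely
many real exponents, real coefficients, depending on `l`) with distinct leading exponents which are
positive and not integers and have positive coefficients; for example `P_l(m) = m ^ (2 l + √2)`.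

**Theorem.** There is ONE set `E` of integers of natural density zero, also of relative density zero in
the set of the primes, depending only on the `P_l`, such that for ALL number fields `k` and integral bases
`B_1, …, B_d` of `k`, ALL primes `ℓ` for which `k` contains the roots of unity of order `ℓ`, ALL `M ≥ 2` with
`M + 1` prime to `ℓ`, ALL degrees `n ≥ 4` and all different indices `σ_{i,u,j}` the following is true for
all but finitely many integers `m` outside `E` (and so for almost all the primes `m`). Let

  `g_i(t) = ∑_{u ≤ n} (∑_j ⌊P_{σ_{i,u,j}}(m)⌋ B_j) t ^ u`,  `i = 0, …, M`.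

Then for ALL `δ ≠ 0` in `k` every class of `ℓ`-power order in `H ^ 1 (k(t), J)` which is zero over the
completions at all closed points of the affine line is zero; in particular the `ℓ`-adic Tate module of
the Tate-Shafarevich group of `J` is zero, the Selmer group conjecture at `ℓ`.

So the curves form one sequence with one parameter `m`, which may be as sparse as `⌊p ^ c⌋`, `p` prime; the
set `E` does not depend on the number field, the prime `ℓ` or the genus.

Proof. The starting library reduces the conclusion to finitely many tests for the residues of the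
coefficients at places of degree one of `k` (irreducibility, a factor of degree one, power residue
symbols); each test is passed by a positive proportion of the residues. By exponential sums the integer
parts are jointly equidistributed modulo all `q ≤ N ^ κ` over the integers and over the primes in
`(N, 2 N]`, and Turan's sieve (`Pool.Agent.N666.TM`) shows that for almost all `m` each test is passed at
some place. Up to isomorphism there are only countably many number fields with an integral basis, and
a diagonal argument gives one set.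
-/

set_option autoImplicit false

open Polynomial NumberField

namespace Pool.Agent.N650.Kept.ThinSequences

/-- `c` is the largest exponent of the generalised polynomial `∑ a_x m ^ x`; it is positive and not an
integer and has a positive coefficient. -/
def Admissible (F : Finset ℝ) (a : ℝ → ℝ) (c : ℝ) : Prop :=
  c ∈ F ∧ (∀ x ∈ F, x ≤ c) ∧ 0 < c ∧ (∀ m : ℕ, c ≠ m) ∧ 0 < a c

/-- The integer part of the value at `m` of the generalised polynomial `P_l`. -/
noncomputable def value (F : ℕ → Finset ℝ) (a : ℕ → ℝ → ℝ) (l m : ℕ) : ℤ :=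
  ⌊∑ x ∈ F l, a l x * (m : ℝ) ^ x⌋

/-- `E` has density zero relative to the sets `S N`. -/
def NullIn (S : ℕ → Finset ℕ) (E : Set ℕ) : Prop :=
  ∀ ε : ℝ, 0 < ε → ∃ N₀ : ℕ, ∀ N : ℕ, N₀ ≤ N →
    ({m : ℕ | m ∈ S N ∧ m ∈ E}.ncard : ℝ) ≤ ε * (S N).card

/-- The polynomial `g_i = ∑_u (∑_j ⌊P_{σ (i, u, j)}(m)⌋ B_j) t ^ u` over `k`. -/
noncomputable def g {k : Type} [Field k] {d M n : ℕ} (B : Fin d → 𝓞 k) (F : ℕ → Finset ℝ)
    (a : ℕ → ℝ → ℝ) (σ : Fin (M + 1) × Fin (n + 1) × Fin d → ℕ) (m : ℕ) (i : Fin (M + 1)) : k[X] :=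
  ∑ u : Fin (n + 1), C (∑ j : Fin d, (value F a (σ (i, u, j)) m : k) * (B j : k)) * X ^ (u : ℕ)

/-- The polynomial `δ (x - g 0 (t)) ... (x - g M (t))` in `x` over `k(t)`. -/
noncomputable def curve {k : Type} [Field k] {M : ℕ} (g : Fin (M + 1) → k[X]) (δ : k) : (RatFunc k)[X] :=
  C (algebraMap k[X] (RatFunc k) (C δ)) *
    ∏ i : Fin (M + 1), (X - C (algebraMap k[X] (RatFunc k) (g i)))

theorem result (F : ℕ → Finset ℝ) (a : ℕ → ℝ → ℝ) (c : ℕ → ℝ) (hP : ∀ l, Admissible (F l) (a l) (c l))
    (hc : Function.Injective c) :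
    ∃ E : Set ℕ, NullIn (fun N => Finset.Ioc N (2 * N)) E ∧
      NullIn (fun N => (Finset.Ioc N (2 * N)).filter Nat.Prime) E ∧
      ∀ (k : Type) [Field k] [NumberField k] (d : ℕ) (B : Module.Basis (Fin d) ℤ (𝓞 k)) (ℓ : ℕ)
        (_ : ℓ.Prime) (ζ : k) (_ : IsPrimitiveRoot ζ ℓ) (M : ℕ) (_ : 2 ≤ M) (_ : ¬ ℓ ∣ M + 1) (n : ℕ)
        (_ : 4 ≤ n) (σ : Fin (M + 1) × Fin (n + 1) × Fin d → ℕ) (_ : Function.Injective σ),
        {m : ℕ | m ∉ E ∧ ¬ ∀ δ : k, δ ≠ 0 →
          (Pool.Agent.Y713.Jac.ShaPrimaryTrivial ℓ (curve (g (fun j => B j) F a σ m) δ) k[X] ∧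
            Pool.Agent.Y713.Jac.ShaTateTrivial ℓ (curve (g (fun j => B j) F a σ m) δ) k[X])}.Finite := by
  obtain ⟨E, h1, h2, h3⟩ := Pool.Agent.N650.TH.star (F := F) (a := a) hP hc
  refine ⟨E, h1, h2, ?_⟩
  intro k _ _ d B ℓ hℓ ζ hζ M hM hN n hn σ hσ
  obtain ⟨m, rfl⟩ : ∃ m, n = m + 2 := ⟨n - 2, by omega⟩
  refine (h3 k d B ℓ hℓ ζ hζ M hM hN m (by omega) (fun q => σ (q.1.1, q.1.2, q.2)) ?_).subset ?_
  · rintro ⟨⟨i, u⟩, j⟩ ⟨⟨i', u'⟩, j'⟩ h
    have := hσ h
    simp only [Prod.mk.injEq] at this
    obtain ⟨h1, h2, h3⟩ := this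
    subst h1; subst h2; subst h3
    rfl
  · rintro t ⟨ht, ht'⟩
    refine ⟨ht, fun hall => ht' fun δ hδ => ?_⟩
    have h4 := hall δ hδ
    have e1 : ∀ i, Pool.Agent.R431.SG.gp (fun q : Fin (M + 1) × Fin (m + 3) => algebraMap (𝓞 k) k
          (∑ j, ((Pool.Agent.N666.TM.flo F a (σ (q.1, q.2, j)) t : ℤ) : 𝓞 k) * B j)) i =
        g (fun j => B j) F a σ t i := by
      intro i
      unfold g Pool.Agent.R431.SG.gp Pool.Agent.R431.SG.pol
      refine Finset.sum_congr rfl fun u _ => ?_
      congr 2
      show algebraMap (𝓞 k) k (∑ j, ((Pool.Agent.N666.TM.flo F a (σ (i, u, j)) t : ℤ) : 𝓞 k) * B j) = _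
      rw [map_sum]
      refine Finset.sum_congr rfl fun j _ => ?_
      rw [map_mul, map_intCast]
      rfl
    simp only [e1] at h4
    exact ⟨h4, Pool.Agent.Y713.Jac.ShaPrimaryTrivial.tate h4⟩

end Pool.Agent.N650.Kept.ThinSequences
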